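import Mathlib
import Pool.Agent.Results.MP_293d80_gt.CounterexampleUnderCH
import Pool.Agent.Helper292.ForceCH

/-!
# It is consistent with ZFC that Split(Λ,Λ) is not closed under unions of two sets

The forcing language is the one of `Helper292.ForceCH`: a sentence is the set of the conditions
which force it; `CHHolds P` says that `ω₁` many subsets of `ℕ` are all subsets of `ℕ`.
-/

set_option autoImplicit false

namespace Pool.Agent.Results.MP_293d80_gt.ForcedNotAdditive

open Set Cardinal Pool.Agent.Helper292.ForceCH
open Pool.Agent.Results.MP_293d80_gt.CounterexampleUnderCH (SplitLL)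

/-- (1) Some forcing notion forces that `ω₁` is preserved and that the continuum hypothesis holds.
(2) The continuum hypothesis implies that there are two sets of reals with the property Split(Λ,Λ)
whose union does not have it. -/
theorem result :
    (∃ (P : Type) (_ : Preorder P), Nonempty P ∧ ∀ p : P,
      p ∈ OmegaOnePreserved P ∧ p ∈ CHHolds P) ∧
    ((ℵ₁ : Cardinal.{0}) = 𝔠 → ∃ X Y : Set ℝ, SplitLL X ∧ SplitLL Y ∧ ¬ SplitLL (X ∪ Y)) := by
  refine ⟨?_, fun h => CounterexampleUnderCH.result h.symm⟩
  · obtain ⟨P, i, h1, h2⟩ := exists_forcing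
    exact ⟨P, i, h1, fun p => ⟨(h2 p).1, (h2 p).2.2⟩⟩

end Pool.Agent.Results.MP_293d80_gt.ForcedNotAdditive
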